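import Pool.Agent.H97.HostileFPP.Main

/-!
# A graph of polynomial growth and isoperimetric dimension at least 2 without strong survival

The answer to the question `does every graph of polynomial growth with isoperimetric dimension
bigger than 1 have a regime of strong survival` is negative, even among connected, one-ended graphs
with all degrees at most 6. The example (`HostileFPP.planes`) consists of countably many copies of
the square lattice, consecutive copies `n` and `n + 1` being joined by an edge between their origins
and by further edges between the vertices `(2 ^ m, 0)`, `m ≥ n`.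
-/

open MeasureTheory
open scoped ENNReal
open Pool.Agent.H97.HostileFPP

namespace Pool.Agent.Results.MP_12f94a_pr.NoStrongSurvival

/-- There is a connected one-ended graph with all degrees at most `6`, of polynomial growth and of
isoperimetric dimension at least `2`, on which, for every `lam > 0` and every `μ ∈ (0, 1)`, almost
surely the process (which almost surely has exactly one evolution) is such that FPP_λ survives; in
particular the graph has no regime of strong survival. -/
theorem result : ∃ (G : SimpleGraph (ℕ × ℤ × ℤ)) (o : ℕ × ℤ × ℤ),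
    G.Connected ∧
    (∀ v, (G.neighborSet v).Finite ∧ (G.neighborSet v).ncard ≤ 6) ∧
    OneEnded G ∧
    PolynomialGrowth G o ∧
    2 ≤ isoDim G ∧
    (∀ lam μ : ℝ, 0 < lam → 0 < μ → μ < 1 →
      IsProbabilityMeasure (envLaw (ℕ × ℤ × ℤ) lam μ) ∧
      ∀ᵐ ω ∂envLaw (ℕ × ℤ × ℤ) lam μ,
        (∃! q : (ℕ × ℤ × ℤ → ℝ≥0∞) × (ℕ × ℤ × ℤ → Kind), IsEvolution G o ω q.1 q.2) ∧
        ∀ T κ, IsEvolution G o ω T κ → Survives G T κ Kind.lam) ∧
    ¬ HasStrongSurvivalRegime G o := by
  refine ⟨planes, (0, 0, 0), planes_connected,
    fun v => ⟨neighborSet_finite v, neighborSet_ncard v⟩, planes_oneEnded, planes_growth,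
    planes_isoDim, fun lam μ h h0 h1 => ⟨isProbabilityMeasure_envLaw h h0 h1, ae_main h h0 h1⟩, ?_⟩
  rintro ⟨lam, μ, h, h0, h1, hS⟩
  refine hS.ne' ?_
  have hae := ae_main h h0 h1
  rw [ae_iff] at hae
  refine measure_mono_null ?_ hae
  rintro ω ⟨T, κ, hT, _, hno⟩
  simp only [Set.mem_ofPred_eq, not_and, not_forall]
  intro _
  exact ⟨T, κ, hT, hno⟩

end Pool.Agent.Results.MP_12f94a_pr.NoStrongSurvival
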